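import Pool.Agent.N637.SLM.Stm5
import Pool.Agent.N570.SLX.Avg

/-!
# Project SLA, FKM: the moments `1`, `2`, `5` of the law of Fouvry and Klüners
-/

set_option autoImplicit false

open scoped Classical

namespace Pool.Agent.N216.SLA

open Finset Filter Topology
open Pool.Agent.N637.SLX (gl)
open Pool.Agent.N637.SLM (fkl S_FKM)
open Pool.Agent.N494.SLX (S)
open Pool.Agent.N570.SLX (Q Q_zero Q_succ half_pow Q_pos S_pos S_prod ft ft_summable F F_val FK FK_nonneg FK_sum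
  FK_two gl_eq tprod_eq)

lemma fkl_eq (r : ℕ) : fkl r = FK r := by
  unfold fkl FK
  rw [gl_eq, tprod_eq, S_prod r, one_div_pow]
  have h1 := Q_pos r
  field_simp

lemma FK_fac : HasSum (fun r : ℕ => FK r * (((2 : ℝ) ^ r - 1) * (2 ^ r - 2))) 1 := by
  have h1 := ((ft_summable 2).hasSum).mul_left (S 0)
  have h2 : S 0 * ∑' k, ft 2 k = 1 := by
    have h3 := F_val 2
    unfold F at h3
    rw [h3]
    field_simp [(S_pos 0).ne']
  rw [h2] at h1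
  rw [← hasSum_nat_add_iff' 2]
  have h4 : (1 : ℝ) - ∑ i ∈ range 2, FK i * (((2 : ℝ) ^ i - 1) * (2 ^ i - 2)) = 1 := by
    rw [sum_range_succ, sum_range_succ, sum_range_zero]
    norm_num
  rw [h4]
  refine h1.congr_fun fun r => ?_
  unfold FK ft
  have h6 := half_pow r
  have h6' := half_pow (r + 1)
  have h7 := (Q_pos r).ne'
  have h8 : (1 : ℝ) - (1 / 2) ^ (r + 1) ≠ 0 := by linarith [h6.2]
  have h8' : (1 : ℝ) - (1 / 2) ^ (r + 1 + 1) ≠ 0 := by linarith [h6'.2]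
  have e0 : r + 2 = r + 1 + 1 := rfl
  rw [e0, Q_succ (r + 1), Q_succ r]
  have e1 : (1 / 2 : ℝ) ^ ((r + 1 + 1) * (r + 1 + 1)) =
      (1 / 2 : ℝ) ^ (r * r + 2 * r) * ((1 / 2 : ℝ) ^ (r + 1 + 1) * (1 / 2 : ℝ) ^ (r + 1 + 1)) := by
    rw [← pow_add, ← pow_add]; congr 1; ring
  have e2 : (2 : ℝ) ^ (r + 1 + 1) * (1 / 2 : ℝ) ^ (r + 1 + 1) = 1 := by
    rw [← mul_pow]; norm_num
  have e4 : (1 / 2 : ℝ) ^ (r + 1) = 2 * (1 / 2 : ℝ) ^ (r + 1 + 1) := by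
    rw [pow_succ (1 / 2 : ℝ) (r + 1)]; ring
  rw [e1]
  rw [e4] at h8 ⊢
  set y : ℝ := (1 / 2 : ℝ) ^ (r + 1 + 1) with hy
  set z : ℝ := (1 / 2 : ℝ) ^ (r * r + 2 * r) with hz
  have h9 := h6'.1.ne'
  have e3 : (2 : ℝ) ^ (r + 1 + 1) = 1 / y := by
    rw [eq_div_iff h9]; exact e2
  rw [e3]
  field_simp

lemma FK_four : HasSum (fun r : ℕ => FK r * (4 : ℝ) ^ r) 5 := by
  have h := (FK_fac.add (FK_two.mul_left 3)).sub (FK_sum.mul_left 2)
  have e : (1 + 3 * 2 - 2 * 1 : ℝ) = 5 := by norm_num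
  rw [e] at h
  refine h.congr_fun fun r => ?_
  have h4 : (4 : ℝ) ^ r = 2 ^ r * 2 ^ r := by
    rw [← mul_pow]; norm_num
  rw [h4]
  ring

/-- SLA-FKM: the moments of the law of Fouvry and Klüners -/
theorem t_FKM : S_FKM := by
  have e : fkl = FK := funext fkl_eq
  unfold S_FKM
  rw [e]
  refine ⟨FK_nonneg, FK_sum, ?_, FK_four⟩
  exact FK_two.congr_fun fun r => mul_comm _ _

end Pool.Agent.N216.SLA
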